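import Pool.Agent.K1H23.Bm.F

/-!
# (S) does not imply (W)

A measure `ν` on the closed unit disc for which the Bergman measures `N_k⁻¹ B_k ν` converge
weak-* to the equilibrium measure, while `(2k)⁻¹ log B_k` does not converge to `V_K`
(it is unbounded at the origin).

`ν` is a sum of rapidly decreasing multiples of the uniform measures on the `2^j`-th roots of
unity.  For `2^j ≤ k < 2^(j+1)` almost all of the mass of `B_k ν` is the sum of a nearly uniform
part on the `2^j`-th roots of unity and of a multiple of `|z^(2^j) - 1|² ν`, whose low moments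
vanish; but the polynomial `z^(2^j) - 1` is tiny in `L²(ν)` and equals `-1` at the origin.
-/

set_option autoImplicit false

open MeasureTheory Polynomial Filter Topology Metric Set

namespace Pool.Agent.Results.MP_58ffb3_an.SparseRoots

open Pool.Agent.K1H23.Bm

/-- There is a measure `ν` on the closed unit disc `K` of `ℂ`, admissible in the sense of the
problem, such that (with `V_K = log⁺ |z|`, continuous, and the equilibrium measure `μ` of `K`)
property (S) holds and property (W) fails; moreover `(2k)⁻¹ log B_k(0) → ∞` along `k = 2^j`.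
In particular the statement of the question is false for `n = 1`. -/
theorem result :
    (∃ ν : Measure ℂ,
      IsAdmissible (closedBall 0 1) ν ∧
      (∃ e : (k : ℕ) → Fin (k + 1) → ℂ[X], ∀ k, IsONB ν k (e k)) ∧
      IsContVK (closedBall 0 1) (fun z => Real.posLog ‖z‖) ∧
      ∃ μ : Measure ℂ, IsEquilibrium (fun z => Real.posLog ‖z‖) μ ∧
        ∀ e : (k : ℕ) → Fin (k + 1) → ℂ[X], (∀ k, IsONB ν k (e k)) →
          PropS ν e μ ∧ ¬ PropW e (fun z => Real.posLog ‖z‖) ∧
          Tendsto (fun j : ℕ => (2 * (2 : ℝ) ^ j)⁻¹ * Real.log (Berg (e (2 ^ j)) 0))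
            atTop atTop) ∧
    ¬ QuestionDimOne := by
  have hex : ∃ e : (k : ℕ) → Fin (k + 1) → ℂ[X], ∀ k, IsONB nu k (e k) :=
    ⟨fun k => (exists_onb k).choose, fun k => (exists_onb k).choose_spec⟩
  refine ⟨⟨nu, isAdmissible_nu, hex, isContVK_disc, circ, isEquilibrium_circ, fun e he =>
    ⟨propS he, not_propW he, tendsto_berg_zero he⟩⟩, fun hQ => ?_⟩
  obtain ⟨e, he⟩ := hex
  exact not_propW he (hQ (closedBall 0 1) vv circ nu e (isCompact_closedBall 0 1)
    isContVK_disc isEquilibrium_circ isAdmissible_nu he (propS he))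

end Pool.Agent.Results.MP_58ffb3_an.SparseRoots
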